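import Pool.Agent.W719.AR.Rt

set_option autoImplicit false

namespace Pool.Agent.W199.AR

open Finset Filter Topology Matrix
open Pool.Agent.H550R3.Jones Pool.Agent.W711.HT Pool.Agent.W719.AR
open scoped Real

/-- the exponent -/
def me (N c : ℕ) : ℤ := (c : ℤ) * (c + 1) - ((N : ℤ) ^ 2 - 1)

theorem vN_ne (N : ℕ) : vN N ≠ 0 := Complex.exp_ne_zero _

theorem vN_zpow (N : ℕ) (m : ℤ) : vN N ^ m = Complex.exp (m * (π * Complex.I / N)) := by
  unfold vN
  rw [← Complex.exp_int_mul]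

theorem exp_pi_mul (c : ℕ) : Complex.exp (-(Complex.I * π * c)) = (-1) ^ c := by
  have : -(Complex.I * π * c) = (c : ℂ) * (-(π * Complex.I)) := by ring
  rw [this, Complex.exp_nat_mul, Complex.exp_neg, Complex.exp_pi_mul_I]
  norm_num

theorem base_val (N c : ℕ) (hN : 2 ≤ N) (hc : c < N) :
    (-1 : ℂ) ^ (N - 1 - c) * vN N ^ (me N c) =
      kp N * Complex.exp (Complex.I * N * (ps N c : ℂ) ^ 2 / (4 * π)) := by
  have hN0 : (N : ℂ) ≠ 0 := by exact_mod_cast (by omega : N ≠ 0)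
  have hpi : (π : ℂ) ≠ 0 := by exact_mod_cast Real.pi_ne_zero
  have hsgn : (-1 : ℂ) ^ (N - 1 - c) = -((-1) ^ N * (-1) ^ c) := by
    obtain ⟨k, hk⟩ : ∃ k, N = c + 1 + k := ⟨N - (c + 1), by omega⟩
    rw [hk, show c + 1 + k - 1 - c = k by omega, pow_add, pow_add, pow_one]
    have : ((-1 : ℂ) ^ c) * (-1) ^ c = 1 := by
      rw [← mul_pow]; norm_num
    linear_combination (-(-1 : ℂ) ^ k) * this
  rw [hsgn, vN_zpow, ← exp_pi_mul N, ← exp_pi_mul c]
  unfold kp
  have hI : -Complex.I = Complex.exp (-(π / 2 * Complex.I)) := by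
    rw [Complex.exp_neg, Complex.exp_pi_div_two_mul_I, Complex.inv_I]
  have hm1 : (-1 : ℂ) = Complex.exp (-(π * Complex.I)) := by
    rw [Complex.exp_neg, Complex.exp_pi_mul_I]; norm_num
  rw [hI]
  have e : ∀ z : ℂ, -z = (-1) * z := fun z => by ring
  rw [e (Complex.exp _ * Complex.exp _), hm1]
  simp only [← Complex.exp_add]
  rw [Complex.exp_eq_exp_iff_exists_int]
  refine ⟨-(N : ℤ), ?_⟩
  unfold me ps
  push_cast
  field_simp
  ring

theorem ex_eq (N : ℕ) (a : ℤ) (v : ℂ) (c : ℕ) :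
    ex N a v c = ((-1 : ℂ) ^ (N - 1 - c)) ^ a * v ^ (me N c * a) := by
  unfold ex me
  rw [mul_zpow, _root_.zpow_mul]

theorem ex_val (N : ℕ) (a : ℤ) (c : ℕ) (hN : 2 ≤ N) (hc : c < N) :
    ex N a (vN N) c = kp N ^ a * Ea a N (ps N c) := by
  have h := base_val N c hN hc
  have : ex N a (vN N) c = ((-1 : ℂ) ^ (N - 1 - c) * vN N ^ (me N c)) ^ a := rfl
  rw [this, h, mul_zpow, ← Complex.exp_int_mul]
  congr 1
  unfold Ea
  congr 1
  ring

theorem hasDeriv_ex (N : ℕ) (a : ℤ) (c : ℕ) {v : ℂ} (hv : v ≠ 0) :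
    HasDerivAt (fun v => ex N a v c) ((me N c * a : ℤ) * ex N a v c / v) v := by
  have h1 := (hasDerivAt_zpow (me N c * a) v (Or.inl hv)).const_mul (((-1 : ℂ) ^ (N - 1 - c)) ^ a)
  have h2 : (fun v => ex N a v c) = fun v => ((-1 : ℂ) ^ (N - 1 - c)) ^ a * v ^ (me N c * a) := by
    funext w; exact ex_eq N a w c
  rw [h2, ex_eq]
  refine h1.congr_deriv ?_
  rw [zpow_sub_one₀ hv]
  field_simp

theorem hasDeriv_un (i : ℕ) {v : ℂ} (hv : v ≠ 0) :
    HasDerivAt (fun v => un v i)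
      ((2 * (i : ℂ) + 1) * (v ^ (2 * (i : ℤ) + 1) - v ^ (-(2 * (i : ℤ) + 1))) / v) v := by
  have h1 := (hasDerivAt_zpow (2 * (i : ℤ) + 1) v (Or.inl hv)).add
    (hasDerivAt_zpow (-(2 * (i : ℤ) + 1)) v (Or.inl hv))
  have h2 : (fun v => un v i) =
      ((fun x : ℂ => x ^ (2 * (i : ℤ) + 1)) + fun x : ℂ => x ^ (-(2 * (i : ℤ) + 1))) := rfl
  rw [h2]
  refine h1.congr_deriv ?_
  rw [zpow_sub_one₀ hv, zpow_sub_one₀ hv]
  push_cast
  field_simp
  ring

theorem ps_refl (N c : ℕ) (hc : c < N) : ps N (N - 1 - c) = -ps N c := by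
  unfold ps
  have : ((N - 1 - c : ℕ) : ℝ) = N - 1 - c := by
    rw [Nat.sub_sub, Nat.cast_sub (by omega)]; push_cast; ring
  rw [this]
  ring

theorem vN_br (N i : ℕ) (hN : 2 ≤ N) :
    vN N ^ (2 * (i : ℤ) + 1) - vN N ^ (-(2 * (i : ℤ) + 1)) =
      -(2 * Complex.I * Complex.sin (ps N i)) := by
  have hN0 : (N : ℂ) ≠ 0 := by exact_mod_cast (by omega : N ≠ 0)
  have h1 : Complex.sin ((2 * i + 1) * π / N) = -Complex.sin (ps N i) := by
    have : ((2 * i + 1) * π / N : ℂ) = (ps N i : ℂ) + π := by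
      unfold ps; push_cast; field_simp; ring
    rw [this, Complex.sin_add_pi]
  rw [vN_zpow, vN_zpow]
  have h2 : Complex.exp (((2 * (i : ℤ) + 1 : ℤ) : ℂ) * (π * Complex.I / N)) -
      Complex.exp (((-(2 * (i : ℤ) + 1) : ℤ) : ℂ) * (π * Complex.I / N)) =
      2 * Complex.I * Complex.sin ((2 * i + 1) * π / N) := by
    rw [Complex.sin]
    have e1 : (((2 * (i : ℤ) + 1 : ℤ) : ℂ) * (π * Complex.I / N)) =
        (2 * i + 1) * π / N * Complex.I := by push_cast; ring
    have e2 : (((-(2 * (i : ℤ) + 1) : ℤ) : ℂ) * (π * Complex.I / N)) =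
        -((2 * i + 1) * π / N) * Complex.I := by push_cast; ring
    rw [e1, e2]
    linear_combination ((Complex.exp ((2 * i + 1) * π / N * Complex.I) -
      Complex.exp (-((2 * i + 1) * π / N) * Complex.I))) * Complex.I_sq
  rw [h2, h1]
  ring

theorem un_val (N i : ℕ) (hN : 2 ≤ N) : un (vN N) i = -(2 * Complex.cos (ps N i)) := by
  have hN0 : (N : ℂ) ≠ 0 := by exact_mod_cast (by omega : N ≠ 0)
  have h1 : Complex.cos ((2 * i + 1) * π / N) = -Complex.cos (ps N i) := by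
    have : ((2 * i + 1) * π / N : ℂ) = (ps N i : ℂ) + π := by
      unfold ps; push_cast; field_simp; ring
    rw [this, Complex.cos_add_pi]
  unfold un
  rw [vN_zpow, vN_zpow]
  have e1 : (((2 * (i : ℤ) + 1 : ℤ) : ℂ) * (π * Complex.I / N)) =
      (2 * i + 1) * π / N * Complex.I := by push_cast; ring
  have e2 : (((-(2 * (i : ℤ) + 1) : ℤ) : ℂ) * (π * Complex.I / N)) =
      -((2 * i + 1) * π / N) * Complex.I := by push_cast; ring
  rw [e1, e2, ← mul_neg, ← h1, Complex.cos]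
  ring

theorem sin_ps_ne (N c : ℕ) (hc : c < N) (hne : 2 * c + 1 ≠ N) : Real.sin (ps N c) ≠ 0 := by
  have hN0 : (0 : ℝ) < N := by exact_mod_cast (by omega : 0 < N)
  have hpi := Real.pi_pos
  rcases lt_or_gt_of_ne hne with h | h
  · have h1 : (2 * (c : ℝ) + 1) < N := by exact_mod_cast h
    have h2 : Real.sin (-ps N c) ≠ 0 := by
      apply ne_of_gt
      apply Real.sin_pos_of_pos_of_lt_pi
      · unfold ps
        rw [neg_div', div_pos_iff_of_pos_right hN0]
        nlinarith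
      · unfold ps
        rw [neg_div', div_lt_iff₀ hN0]
        nlinarith [Nat.cast_nonneg (α := ℝ) c]
    intro h3
    apply h2
    rw [Real.sin_neg, h3, neg_zero]
  · have h1 : (N : ℝ) < 2 * (c : ℝ) + 1 := by exact_mod_cast h
    have h4 : (c : ℝ) + 1 ≤ N := by exact_mod_cast hc
    apply ne_of_gt
    apply Real.sin_pos_of_pos_of_lt_pi
    · unfold ps
      rw [div_pos_iff_of_pos_right hN0]
      nlinarith
    · unfold ps
      rw [div_lt_iff₀ hN0]
      nlinarith

theorem deriv_F (N : ℕ) (a : ℤ) (ψ : ℂ) :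
    HasDerivAt (fun ψ => kp N ^ a * Ea a N ψ)
      (kp N ^ a * (Ea a N ψ * (Complex.I * a * N * (2 * ψ) / (4 * π)))) ψ := by
  unfold Ea
  have h1 : HasDerivAt (fun ψ : ℂ => Complex.I * a * N * ψ ^ 2 / (4 * π))
      (Complex.I * a * N * (2 * ψ) / (4 * π)) ψ := by
    have := ((hasDerivAt_pow 2 ψ).const_mul (Complex.I * a * N)).div_const (4 * (π : ℂ))
    refine this.congr_deriv ?_
    norm_num
  exact (h1.cexp).const_mul _

theorem quot_tendsto {f g : ℂ → ℂ} {f' g' z : ℂ} (hf : HasDerivAt f f' z) (hg : HasDerivAt g g' z)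
    (hf0 : f z = 0) (hg0 : g z = 0) (hg' : g' ≠ 0) :
    Tendsto (fun v => f v / g v) (𝓝[≠] z) (𝓝 (f' / g')) := by
  have h1 := hf.tendsto_slope
  have h2 := hg.tendsto_slope
  have h3 := h1.div h2 hg'
  refine h3.congr' ?_
  filter_upwards [self_mem_nhdsWithin] with v hv
  have hv' : v - z ≠ 0 := sub_ne_zero.2 hv
  simp only [slope_def_field, hf0, hg0, sub_zero, Pi.div_apply]
  rw [div_div_div_cancel_right₀ hv']

theorem lmv : S_LMV := by
  intro N a hN
  have hN0 : (N : ℂ) ≠ 0 := by exact_mod_cast (by omega : N ≠ 0)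
  have hpi : (π : ℂ) ≠ 0 := by exact_mod_cast Real.pi_ne_zero
  refine ⟨fun ψ => (deriv_F N a ψ).differentiableAt, fun ψ => ?_, fun c hc => ?_,
    fun c hc hne => ?_⟩
  · simp only [Ea]
    rw [neg_sq]
  · have h1 := (hasDeriv_ex N a c (vN_ne N)).continuousAt.tendsto
    rw [ex_val N a c hN hc] at h1
    exact h1.mono_left nhdsWithin_le_nhds
  · have hc' : N - 1 - c < N := by omega
    have hcast : ((N - 1 - c : ℕ) : ℂ) = N - 1 - c := by
      rw [Nat.sub_sub, Nat.cast_sub (by omega)]; push_cast; ring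
    have hcast' : ((N - 1 - c : ℕ) : ℤ) = (N : ℤ) - 1 - c := by
      rw [Nat.sub_sub, Nat.cast_sub (by omega)]; push_cast; ring
    have hv := vN_ne N
    have hX : ex N a (vN N) (N - 1 - c) = ex N a (vN N) c := by
      rw [ex_val N a _ hN hc', ex_val N a c hN hc, ps_refl N c hc]
      push_cast
      simp only [Ea, neg_sq]
    have hsin : Complex.sin (ps N c) ≠ 0 := by
      rw [← Complex.ofReal_sin]
      exact_mod_cast sin_ps_ne N c hc hne
    have hf := (hasDeriv_ex N a c hv).sub (hasDeriv_ex N a (N - 1 - c) hv)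
    have hg := (hasDeriv_un c hv).sub (hasDeriv_un (N - 1 - c) hv)
    have hps' : Complex.sin (ps N (N - 1 - c)) = -Complex.sin (ps N c) := by
      rw [ps_refl N c hc]; push_cast; rw [Complex.sin_neg]
    have hg' : (2 * (c : ℂ) + 1) * (vN N ^ (2 * (c : ℤ) + 1) - vN N ^ (-(2 * (c : ℤ) + 1))) / vN N -
        (2 * ((N - 1 - c : ℕ) : ℂ) + 1) * (vN N ^ (2 * ((N - 1 - c : ℕ) : ℤ) + 1) -
          vN N ^ (-(2 * ((N - 1 - c : ℕ) : ℤ) + 1))) / vN N =
        -(4 * Complex.I * N * Complex.sin (ps N c)) / vN N := by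
      rw [vN_br N c hN, vN_br N (N - 1 - c) hN, hps', hcast]
      field_simp
      ring
    have hq := quot_tendsto hf hg (by simp only [Pi.sub_apply, hX, sub_self]) (by
      simp only [Pi.sub_apply]
      rw [un_val N c hN, un_val N _ hN, ps_refl N c hc]
      push_cast
      rw [Complex.cos_neg, sub_self]) (by
      rw [hg']
      refine div_ne_zero (neg_ne_zero.2 (mul_ne_zero (mul_ne_zero (mul_ne_zero (by norm_num)
        Complex.I_ne_zero) hN0) hsin)) hv)
    have e : ((me N c * a : ℤ) * ex N a (vN N) c / vN N -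
        (me N (N - 1 - c) * a : ℤ) * ex N a (vN N) (N - 1 - c) / vN N) /
          ((2 * (c : ℂ) + 1) * (vN N ^ (2 * (c : ℤ) + 1) - vN N ^ (-(2 * (c : ℤ) + 1))) / vN N -
            (2 * ((N - 1 - c : ℕ) : ℂ) + 1) * (vN N ^ (2 * ((N - 1 - c : ℕ) : ℤ) + 1) -
              vN N ^ (-(2 * ((N - 1 - c : ℕ) : ℤ) + 1))) / vN N) =
        deriv (fun ψ => kp N ^ a * Ea a N ψ) (ps N c) / (2 * Complex.sin (ps N c)) := by
      rw [hg', hX, (deriv_F N a _).deriv, ex_val N a c hN hc]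
      have hps : ((ps N c : ℝ) : ℂ) = π * (2 * c + 1 - N) / N := by
        unfold ps; push_cast; ring
      have hme : ((me N c * a : ℤ) : ℂ) - ((me N (N - 1 - c) * a : ℤ) : ℂ) =
          a * N * (2 * c + 1 - N) := by
        unfold me
        rw [hcast']
        push_cast
        ring
      have hF : (Complex.I * a * N * (2 * ((ps N c : ℝ) : ℂ)) / (4 * π)) =
          Complex.I * a * (2 * c + 1 - N) / 2 := by
        rw [hps]
        field_simp
        ring
      rw [hF]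
      generalize kp N ^ a = K at *
      generalize Ea a N (ps N c) = E at *
      have h5 : (((me N c * a : ℤ) : ℂ) * (K * E) / vN N -
          ((me N (N - 1 - c) * a : ℤ) : ℂ) * (K * E) / vN N) =
          a * N * (2 * c + 1 - N) * (K * E) / vN N := by
        rw [← hme]; ring
      rw [h5]
      field_simp
      linear_combination (-(8 * a * c * K * E - 4 * a * N * K * E + 4 * a * K * E)) * Complex.I_sq
    rw [e] at hq
    exact hq

end Pool.Agent.W199.AR
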